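import Pool.Agent.H28.GN.T3
import Pool.Agent.H28.GN.T4

/-!
Rows MN1 and MN2 of thg_modules: monotonicity of the box averages of words.
-/

set_option autoImplicit false

open Finset

namespace Pool.Agent.H61.GNG

open Pool.Agent.H28.GN

/-- the partial products of a word -/
noncomputable def Ph (u : Bool × Bool → ℂ) (w : ℕ → Bool × Bool) (n : ℤ) : ℂ :=
  ∏ i ∈ range n.toNat, u (w i)

theorem Ph_norm {u : Bool × Bool → ℂ} (hu : ∀ b, ‖u b‖ = 1) (w : ℕ → Bool × Bool) (n : ℤ) :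
    ‖Ph u w n‖ = 1 := by
  unfold Ph
  rw [norm_prod]
  exact prod_eq_one fun i _ => hu _

theorem Ph_step (u : Bool × Bool → ℂ) (w : ℕ → Bool × Bool) (a i : ℕ) :
    Ph u w ((a : ℤ) + i + 1) = Ph u w ((a : ℤ) + i) * u (w (i + a)) := by
  unfold Ph
  have h1 : ((a : ℤ) + i + 1).toNat = (i + a) + 1 := by omega
  have h2 : ((a : ℤ) + i).toNat = i + a := by omega
  rw [h1, h2, prod_range_succ]

theorem bridge (hW : T_BRW) {u : Bool × Bool → ℂ} (hu : ∀ b, ‖u b‖ = 1) (c J H K : ℕ)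
    (w : ℕ → Bool × Bool) (hH : 0 < H) (hK : 0 < K) (a : ℕ) :
    DZ c H K J (Ph u w) (a : ℤ) = DG u c J H K (fun i => w (i + a)) :=
  hW u c J H K (fun i => w (i + a)) (Ph u w) a hu hH hK (Ph_norm hu w) (Ph_step u w a)

theorem pf_MN1 (hW : T_BRW) (hM : T_MZ1) : T_MN1 := by
  intro u c J H K M w hu hH hK hM0
  have h0 := bridge hW hu c J (M * H) K w (Nat.mul_pos hM0 hH) hK 0
  have h1 := hM c H K M J (Ph u w) 0 hH hK hM0
  simp only [Nat.cast_zero, Nat.add_zero] at h0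
  rw [h0] at h1
  refine h1.trans (le_of_eq ?_)
  congr 1
  refine sum_congr rfl fun b _ => ?_
  rw [← bridge hW hu c J H K w hH hK (c * (H * ∑ j, b j))]
  congr 1
  push_cast
  ring

theorem pf_MN2 (hW : T_BRW) (hM : T_MZ2) : T_MN2 := by
  intro u c J H K M w hu hH hK hM0
  have h0 := bridge hW hu c J H (M * K) w hH (Nat.mul_pos hM0 hK) 0
  have h1 := hM c H K M J (Ph u w) 0 hH hK hM0
  simp only [Nat.cast_zero, Nat.add_zero] at h0
  rw [h0] at h1
  refine h1.trans (le_of_eq ?_)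
  congr 1
  refine sum_congr rfl fun b _ => ?_
  rw [← bridge hW hu c J H K w hH hK (K * b)]
  congr 1
  push_cast
  ring

end Pool.Agent.H61.GNG
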