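import Pool.Agent.H28.GN.T1
import Pool.Agent.H28.GN.T3

/-!
Rows TPP and CIM of thg_modules.
-/

set_option autoImplicit false

open MeasureTheory ProbabilityTheory Filter Topology Finset
open scoped Nat ENNReal

namespace Pool.Agent.H61.GNG

open Pool.Agent.H28.GN
open Pool.Agent.H67.AG (avgP ul Inv Rt Av SA kap JJ TT InvZ nxt triv tow XN PN TN XX PX TX prX Fac)
open Pool.Agent.H28.LF (Wd La Cd dm ds)

theorem vvG_meas {X : Type} [MeasurableSpace X] [StandardBorelSpace X] {q : ℕ} (μ : Measure X)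
    (a : X → Fin q) (Z : SA X) : Measurable (vvG μ a Z) := by
  have h : ∀ b, Measurable (wtG μ a Z b) := fun b =>
    (stronglyMeasurable_condExp.mono Z.2).measurable
  unfold vvG
  fun_prop

theorem pf_TPP (hR : T_RSP) : T_TPP := by
  intro X _ _ μ _ T q R a U Pt ι _ _ _ _ s pos I B γ κ hE ha hU hs hpos hB hcard hγ hds hκ hSpr
  unfold TpG
  intro J th hJ h0 h1 hV
  have h2 := hR X μ T q R J a U Pt ι s pos I B th hE ha hU hs hpos hB hJ h0 h1
  have hf01 : ∀ x, 0 ≤ th * vvG μ a (tow μ T J) x ∧ th * vvG μ a (tow μ T J) x ≤ 1 := by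
    intro x
    have h3 : 0 ≤ vvG μ a (tow μ T J) x := le_max_left _ _
    have h4 : vvG μ a (tow μ T J) x ≤ 1 := max_le zero_le_one (min_le_left _ _)
    exact ⟨mul_nonneg h0 h3, by nlinarith⟩
  have hfm : Measurable fun x => th * vvG μ a (tow μ T J) x := (vvG_meas μ a _).const_mul th
  have h3 := hSpr X μ T (fun x => th * vvG μ a (tow μ T J) x) hE.toMeasurePreserving hfm hf01 hV
  have hx : 0 ≤ ∫ x, th * vvG μ a (tow μ T J) x ∂μ := integral_nonneg fun x => (hf01 x).1
  obtain ⟨x, hxd⟩ : ∃ x, x = ∫ x, th * vvG μ a (tow μ T J) x ∂μ := ⟨_, rfl⟩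
  rw [← hxd] at h2 h3 hx ⊢
  have hI : (0 : ℝ) ≤ I.card := Nat.cast_nonneg _
  have h4 : γ * (I.card * x) ≤ dsG U s * (I.card * x) :=
    mul_le_mul_of_nonneg_right hds (mul_nonneg hI hx)
  have h5 : (Fintype.card ι : ℝ) ≤ 2 * I.card := by exact_mod_cast hcard
  have h6 : 7 / 16 * γ * (Fintype.card ι : ℝ) * x ≤ 7 / 16 * γ * (2 * I.card) * x := by
    gcongr
  linarith

theorem pf_CIM : T_CIM := by
  intro J Q
  have h1 : Fintype.card (Pl J (3 * Q + Q)) = 2 ^ J * (4 * Q) := by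
    unfold Pl
    rw [Fintype.card_prod, Fintype.card_fun, Fintype.card_bool, Fintype.card_fin, Fintype.card_fin]
    congr 1
    ring
  have h2 : (Im J Q (3 * Q)).card = 2 ^ J * (2 * Q) := by
    have e : Im J Q (3 * Q) = (univ : Finset (Fin J → Bool)) ×ˢ
        (univ.filter fun a : Fin (3 * Q + Q) => Q ≤ (a : ℕ) ∧ (a : ℕ) < 3 * Q) := by
      unfold Im
      ext p
      simp
    have e2 : (univ.filter fun a : Fin (3 * Q + Q) => Q ≤ (a : ℕ) ∧ (a : ℕ) < 3 * Q).card =
        2 * Q := by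
      have e3 : (univ.filter fun a : Fin (3 * Q + Q) => Q ≤ (a : ℕ) ∧ (a : ℕ) < 3 * Q).map
          Fin.valEmbedding = Ico Q (3 * Q) := by
        ext k
        simp only [Finset.mem_map, mem_filter, mem_univ, true_and, Fin.valEmbedding_apply, mem_Ico]
        constructor
        · rintro ⟨a, ha, rfl⟩
          exact ha
        · intro hk
          exact ⟨⟨k, by omega⟩, hk, rfl⟩
      rw [← Finset.card_map Fin.valEmbedding, e3, Nat.card_Ico]
      omega
    rw [e, card_product, e2, card_univ, Fintype.card_fun, Fintype.card_bool, Fintype.card_fin]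
  refine ⟨?_, h1⟩
  rw [h1, h2]
  ring

end Pool.Agent.H61.GNG
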